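import Pool.Agent.W184.LIP.Defs
import Pool.Agent.W184.LIP.ELIM
import Pool.Agent.W184.LIP.SIDEL
import Pool.Agent.W184.LIP.SIDER
import Pool.Agent.W184.LIP.COUNTB
import Pool.Agent.W184.LIP.NLB
import Pool.Agent.W184.LIP.LB
import Pool.Agent.W184.LIP.FACTS
import Pool.Agent.W184.LIP.STEPI
import Pool.Agent.W184.LIP.STEPE
import Pool.Agent.W184.LIP.STEP
import Pool.Agent.W184.LIP.TREE
import Pool.Agent.W184.LIP.CONV
import Pool.Agent.W184.LIP.UB
import Pool.Agent.W184.LIP.FLUB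
import Pool.Agent.W184.LIP.FIN
import Pool.Agent.Y125.LIP.Unif

set_option autoImplicit false

/-!
MP_6d7b3f_co, Q1, in a form which is uniform in the treewidth and holds for every `n ≥ 3`: for the
length `f(W_k, n)` of the longest induced path forced by a path on `n` vertices in graphs of
treewidth at most `k`, for all `j ≥ 1` and all `n ≥ 3`,

* `(log n)^{1/j} / 20 ≤ f(W_{2j}, n) ≤ 9 j (log n)^{1/j}`,
* `(log n / log log n)^{1/j} / 44 ≤ f(W_{2j+1}, n) ≤ 15 j (log n / log log n)^{1/j}`.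

Hence the growth rates for fixed `k`, with constants which are absolute in the lower bounds and
linear in `k` in the upper bounds; the treewidth may depend on `n`.
-/

open Filter Asymptotics Pool.Agent.W184.LIP

namespace Pool.Agent.Results.MP_6d7b3f_co.UniformGrowth

theorem one_mem {k n : ℕ} (hn : 1 ≤ n) : 1 ∈ Forced k n := by
  rintro N G - ⟨h⟩
  obtain ⟨v, hv⟩ : ∃ v, v = h.toHom ⟨0, hn⟩ := ⟨_, rfl⟩
  refine ⟨⟨⟨fun _ => v, fun a b _ => Subsingleton.elim a b⟩, ?_⟩⟩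
  intro a b
  have : a = b := Subsingleton.elim a b
  subst this
  simp

theorem result :
    ∀ j : ℕ, 1 ≤ j →
      ((∀ n, IsGreatest (Forced (2 * j) n) (f (2 * j) n)) ∧
        (∀ n : ℕ, 3 ≤ n →
          Real.log n ^ ((1 : ℝ) / j) / 20 ≤ (f (2 * j) n : ℝ) ∧
          (f (2 * j) n : ℝ) ≤ 9 * j * Real.log n ^ ((1 : ℝ) / j)) ∧
        (fun n : ℕ => (f (2 * j) n : ℝ)) =Θ[atTop] (fun n : ℕ => Real.log n ^ ((1 : ℝ) / j))) ∧
      ((∀ n, IsGreatest (Forced (2 * j + 1) n) (f (2 * j + 1) n)) ∧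
        (∀ n : ℕ, 3 ≤ n →
          (Real.log n / Real.log (Real.log n)) ^ ((1 : ℝ) / j) / 44 ≤ (f (2 * j + 1) n : ℝ) ∧
          (f (2 * j + 1) n : ℝ) ≤
            15 * j * (Real.log n / Real.log (Real.log n)) ^ ((1 : ℝ) / j)) ∧
        (fun n : ℕ => (f (2 * j + 1) n : ℝ)) =Θ[atTop]
          (fun n : ℕ => (Real.log n / Real.log (Real.log n)) ^ ((1 : ℝ) / j))) := by
  have hUB : S_UB := UB.pf (STEP.pf (STEPI.pf FACTS.pf) (STEPE.pf FACTS.pf)) (CONV.pf TREE.pf)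
  have hLB : S_LB := LB.pf ELIM.pf (NLB.pf SIDEL.pf (SIDER.pf SIDEL.pf) COUNTB.pf)
  have hFLB : S_FLB := FLUB.pf.1 hLB hUB
  have hFUB : S_FUB := FLUB.pf.2 hUB
  intro j hj
  have hg0 : ∀ n, IsGreatest (Forced (2 * j) n) (f (2 * j) n) :=
    fun n => FIN.greatest hUB j 0 n hj
  have hg1 : ∀ n, IsGreatest (Forced (2 * j + 1) n) (f (2 * j + 1) n) :=
    fun n => FIN.greatest hUB j 1 n hj
  have h0 : ∀ n : ℕ, 3 ≤ n → Real.log n ^ ((1 : ℝ) / j) / 20 ≤ (f (2 * j) n : ℝ) ∧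
      (f (2 * j) n : ℝ) ≤ 9 * j * Real.log n ^ ((1 : ℝ) / j) := fun n hn =>
    ⟨Pool.Agent.Y125.LIP.lower_even hFLB hj hn ((hg0 n).2 (one_mem (by omega))),
      Pool.Agent.Y125.LIP.upper_even hFUB hj hn⟩
  have h1 : ∀ n : ℕ, 3 ≤ n →
      (Real.log n / Real.log (Real.log n)) ^ ((1 : ℝ) / j) / 44 ≤ (f (2 * j + 1) n : ℝ) ∧
      (f (2 * j + 1) n : ℝ) ≤
        15 * j * (Real.log n / Real.log (Real.log n)) ^ ((1 : ℝ) / j) := fun n hn =>
    ⟨Pool.Agent.Y125.LIP.lower_odd hFLB hj hn ((hg1 n).2 (one_mem (by omega))),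
      Pool.Agent.Y125.LIP.upper_odd hFUB hj hn⟩
  refine ⟨⟨hg0, h0, ?_, ?_⟩, ⟨hg1, h1, ?_, ?_⟩⟩
  · refine IsBigO.of_bound (9 * j) ?_
    filter_upwards [eventually_ge_atTop 3] with n hn
    have h2 : 0 ≤ Real.log (n : ℝ) ^ ((1 : ℝ) / j) :=
      Real.rpow_nonneg (by linarith [Pool.Agent.Y125.LIP.one_lt_log hn]) _
    rw [Real.norm_of_nonneg (by positivity), Real.norm_of_nonneg h2]
    exact (h0 n hn).2
  · refine IsBigO.of_bound 20 ?_
    filter_upwards [eventually_ge_atTop 3] with n hn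
    have h2 : 0 ≤ Real.log (n : ℝ) ^ ((1 : ℝ) / j) :=
      Real.rpow_nonneg (by linarith [Pool.Agent.Y125.LIP.one_lt_log hn]) _
    rw [Real.norm_of_nonneg h2, Real.norm_of_nonneg (by positivity)]
    linarith [(h0 n hn).1]
  · refine IsBigO.of_bound (15 * j) ?_
    filter_upwards [eventually_ge_atTop 3] with n hn
    have h3 := Pool.Agent.Y125.LIP.one_lt_log hn
    have h2 : 0 ≤ (Real.log (n : ℝ) / Real.log (Real.log n)) ^ ((1 : ℝ) / j) :=
      Real.rpow_nonneg (div_nonneg (by linarith) (Real.log_pos h3).le) _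
    rw [Real.norm_of_nonneg (by positivity), Real.norm_of_nonneg h2]
    exact (h1 n hn).2
  · refine IsBigO.of_bound 44 ?_
    filter_upwards [eventually_ge_atTop 3] with n hn
    have h3 := Pool.Agent.Y125.LIP.one_lt_log hn
    have h2 : 0 ≤ (Real.log (n : ℝ) / Real.log (Real.log n)) ^ ((1 : ℝ) / j) :=
      Real.rpow_nonneg (div_nonneg (by linarith) (Real.log_pos h3).le) _
    rw [Real.norm_of_nonneg h2, Real.norm_of_nonneg (by positivity)]
    linarith [(h1 n hn).1]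

end Pool.Agent.Results.MP_6d7b3f_co.UniformGrowth
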